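import Pool.Agent.Helper98.PowPart.Pell

set_option autoImplicit false

/-! The powerful part of `n (n+1) ... (n+l)`. -/

namespace Pool.Agent.Helper98.PowPart

/-- The powerful part `Q_2(m)`: the product of `p ^ k` over the primes `p` whose exact exponent
`k` in `m` is at least two. -/
def powerfulPart (m : ℕ) : ℕ :=
  ∏ p ∈ m.primeFactors.filter (fun p => 2 ≤ m.factorization p), p ^ m.factorization p

lemma powerfulPart_pos (m : ℕ) : 0 < powerfulPart m :=
  Finset.prod_pos fun _ hp =>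
    Nat.pow_pos (Nat.prime_of_mem_primeFactors (Finset.mem_filter.mp hp).1).pos

/-- a powerful divisor of `m` divides the powerful part of `m` -/
lemma dvd_powerfulPart {D m : ℕ} (hm : m ≠ 0) (hD : D ∣ m)
    (hpow : ∀ p : ℕ, p.Prime → p ∣ D → p ^ 2 ∣ D) : D ∣ powerfulPart m := by
  have hD0 : D ≠ 0 := fun h => hm (by rw [h] at hD; exact Nat.eq_zero_of_zero_dvd hD)
  have h1 : ∏ p ∈ D.primeFactors, p ^ D.factorization p = D :=
    Nat.prod_factorization_pow_eq_self hD0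
  rw [← h1]
  apply Finset.prod_dvd_of_isRelPrime
  · intro p hp q hq hpq
    have hp' := Nat.prime_of_mem_primeFactors hp
    have hq' := Nat.prime_of_mem_primeFactors hq
    exact Nat.coprime_iff_isRelPrime.mp (Nat.coprime_pow_primes _ _ hp' hq' hpq)
  · intro p hp
    have hp' := Nat.prime_of_mem_primeFactors hp
    have hpD := Nat.dvd_of_mem_primeFactors hp
    have h2 : 2 ≤ D.factorization p :=
      (hp'.pow_dvd_iff_le_factorization hD0).mp (hpow p hp' hpD)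
    have h3 : D.factorization p ≤ m.factorization p :=
      (Nat.factorization_le_iff_dvd hD0 hm).mpr hD p
    have h4 : p ∈ m.primeFactors.filter (fun p => 2 ≤ m.factorization p) := by
      rw [Finset.mem_filter, Nat.mem_primeFactors]
      exact ⟨⟨hp', dvd_trans hpD hD, hm⟩, le_trans h2 h3⟩
    exact dvd_trans (pow_dvd_pow p h3) (Finset.dvd_prod_of_mem _ h4)

/-! ### the third term -/

lemma norm_even {m : ℕ} (h : Even m) : a m ^ 2 = 2 * b m ^ 2 + 1 := by
  have h1 := norm m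
  rw [h.neg_one_pow] at h1
  zify
  linarith

lemma norm_odd {m : ℕ} (h : Odd m) : a m ^ 2 + 1 = 2 * b m ^ 2 := by
  have h1 := norm m
  rw [h.neg_one_pow] at h1
  zify
  linarith

/-- `a_{m+1}^2 = 2 b_m b_{m+2} + 1` for even `m` -/
lemma third {m : ℕ} (h : Even m) : a (m + 1) ^ 2 = 2 * (b m * b (m + 2)) + 1 := by
  have h1 := norm_even h
  rw [a_succ, show b (m + 2) = 2 * a m + 3 * b m by rw [b_succ, a_succ, b_succ]; ring]
  nlinarith [h1]

lemma even_M (i : ℕ) : Even (M i) := by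
  have h : 4 ∣ M i := M_dvd (Nat.zero_le i)
  exact (Nat.even_iff.mpr (by omega))

lemma twelve_dvd_M (i : ℕ) : 12 ∣ M (i + 1) := by
  have := M_dvd (show 1 ≤ i + 1 by omega)
  rwa [M_one] at this

/-- primes dividing `b_{M_i}` divide `M_{i+1}` -/
lemma prime_dvd_M {i p : ℕ} (hp : p.Prime) (h : p ∣ b (M i)) : p ∣ M (i + 1) := by
  rw [M_succ]; exact Dvd.dvd.mul_left ((dvd_R (M_pos i) hp).mpr h) 2

/-- `210 ∣ M_{i+2}` -/
lemma M_210 (i : ℕ) : 420 ∣ M (i + 2) := by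
  have h12 : b 12 ∣ b (M (i + 1)) := b_dvd (twelve_dvd_M i)
  have e12 : b 12 = 13860 := rfl
  rw [e12] at h12
  have h5 : 5 ∣ M (i + 2) := prime_dvd_M Nat.prime_five (dvd_trans (by norm_num) h12)
  have h7 : 7 ∣ M (i + 2) :=
    prime_dvd_M (by norm_num) (dvd_trans (by norm_num) h12)
  have h0 : 12 ∣ M (i + 2) := twelve_dvd_M (i + 1)
  omega

lemma b_seven : b 7 = 169 := rfl
lemma b_thirty : 31 ^ 2 ∣ b 30 := by decide +kernel

lemma M_13 (i : ℕ) : 13 ∣ M (i + 3) := by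
  have h7 : 7 ∣ M (i + 2) := dvd_trans (by norm_num) (M_210 i)
  have h := b_dvd h7
  rw [b_seven] at h
  exact prime_dvd_M (by norm_num) (dvd_trans (by norm_num) h)

lemma M_31 (i : ℕ) : 31 ∣ M (i + 3) := by
  have h30 : 30 ∣ M (i + 2) := dvd_trans (by norm_num) (M_210 i)
  have h := b_dvd h30
  exact prime_dvd_M (by norm_num) (dvd_trans (dvd_trans (by norm_num) b_thirty) h)

lemma cube_13 (i : ℕ) : 13 ^ 3 ∣ b (M (i + 3)) := by
  have h1 : 7 * 13 ∣ M (i + 3) := by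
    have h2 := M_13 i
    have h3 : 7 ∣ M (i + 3) := dvd_trans (by norm_num) (M_210 (i + 1))
    omega
  have h4 : 13 * b 7 ∣ b (7 * 13) := lift (by norm_num) (by rw [b_seven]; norm_num)
  rw [b_seven] at h4
  exact dvd_trans (dvd_trans (by norm_num) h4) (b_dvd h1)

lemma cube_31 (i : ℕ) : 31 ^ 3 ∣ b (M (i + 3)) := by
  have h1 : 30 * 31 ∣ M (i + 3) := by
    have h2 := M_31 i
    have h3 : 30 ∣ M (i + 3) := dvd_trans (by norm_num) (M_210 (i + 1))
    omega
  have h4 : 31 * b 30 ∣ b (30 * 31) :=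
    lift (by norm_num) (dvd_trans (by norm_num) b_thirty)
  have h5 : 31 ^ 3 ∣ 31 * b 30 := by
    rw [pow_succ' 31 2]; exact Nat.mul_dvd_mul_left 31 b_thirty
  exact dvd_trans (dvd_trans h5 h4) (b_dvd h1)

/-- `403 * R_i^2 ∣ b_{M_{i+1}}` for `i ≥ 3` -/
lemma R_sq_dvd (i : ℕ) : 403 * R (M (i + 3)) ^ 2 ∣ b (M (i + 3 + 1)) := by
  set m := M (i + 3) with hm
  set S := (b m).primeFactors with hS
  have hb0 : b m ≠ 0 := (bM_pos _).ne'
  have h13 : 13 ∈ S := Nat.mem_primeFactors.mpr ⟨by norm_num,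
    dvd_trans (by norm_num) (cube_13 i), hb0⟩
  have h31 : 31 ∈ S := Nat.mem_primeFactors.mpr ⟨by norm_num,
    dvd_trans (by norm_num) (cube_31 i), hb0⟩
  have key : ∏ p ∈ S, p ^ (if p = 13 ∨ p = 31 then 3 else 2) ∣ b (M (i + 3 + 1)) := by
    apply Finset.prod_dvd_of_isRelPrime
    · intro p hp q hq hpq
      exact Nat.coprime_iff_isRelPrime.mp (Nat.coprime_pow_primes _ _
        (Nat.prime_of_mem_primeFactors hp) (Nat.prime_of_mem_primeFactors hq) hpq)
    · intro p hp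
      by_cases h : p = 13 ∨ p = 31
      · rw [if_pos h]
        rcases h with rfl | rfl
        · exact dvd_trans (cube_13 i) (b_dvd (inv (i + 3)).1)
        · exact dvd_trans (cube_31 i) (b_dvd (inv (i + 3)).1)
      · rw [if_neg h]
        exact (inv (i + 3)).2 p (Nat.prime_of_mem_primeFactors hp)
          (Nat.dvd_of_mem_primeFactors hp)
  refine dvd_trans ?_ key
  have e1 : ∏ p ∈ S, p ^ (if p = 13 ∨ p = 31 then 3 else 2) =
      (∏ p ∈ S, (if p = 13 ∨ p = 31 then p else 1)) * R m ^ 2 := by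
    rw [R, ← Finset.prod_pow, ← Finset.prod_mul_distrib]
    apply Finset.prod_congr rfl
    intro p _
    by_cases h : p = 13 ∨ p = 31
    · rw [if_pos h, if_pos h]; ring
    · rw [if_neg h, if_neg h]; ring
  rw [e1]
  apply Nat.mul_dvd_mul_right
  have e2 : ∏ p ∈ ({13, 31} : Finset ℕ), (if p = 13 ∨ p = 31 then p else 1) = 403 := by
    decide
  rw [← e2]
  apply Finset.prod_dvd_prod_of_subset
  intro p hp
  simp only [Finset.mem_insert, Finset.mem_singleton] at hp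
  rcases hp with rfl | rfl
  · exact h13
  · exact h31

/-- the integer `n` attached to the index `M` -/
def N (i : ℕ) : ℕ := 2 * (b (M i) * b (M i + 2))

lemma N_succ (i : ℕ) : N i + 1 = a (M i + 1) ^ 2 := (third (even_M i)).symm

lemma N_succ_succ (i : ℕ) : N i + 2 = 2 * b (M i + 1) ^ 2 := by
  have h : Odd (M i + 1) := (even_M i).add_one
  rw [← norm_odd h, ← N_succ i]

lemma dvd_N (i : ℕ) : 403 * M (i + 3 + 1) ^ 2 ∣ N (i + 3 + 1) := by
  have h1 := R_sq_dvd i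
  have h2 : 2 ∣ b (M (i + 3 + 1) + 2) :=
    two_dvd_b ((even_iff_two_dvd.mp (even_M (i + 3 + 1))).add (dvd_refl 2))
  rw [N, M_succ (i + 3)]
  have h3 : 2 * ((403 * R (M (i + 3)) ^ 2) * 2) ∣
      2 * (b (M (i + 3 + 1)) * b (M (i + 3 + 1) + 2)) :=
    Nat.mul_dvd_mul_left 2 (mul_dvd_mul h1 h2)
  rw [M_succ (i + 3)] at h3
  refine dvd_trans (dvd_of_eq ?_) h3
  ring

/-- the powerful divisor -/
def D (i : ℕ) : ℕ := (403 * M (i + 3 + 1) ^ 2) *
  ((N (i + 3 + 1) + 1) * (N (i + 3 + 1) + 2))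

lemma D_powerful (i : ℕ) (p : ℕ) (hp : p.Prime) (h : p ∣ D i) : p ^ 2 ∣ D i := by
  have hM : ∀ q : ℕ, q ∣ M (i + 3 + 1) → q ^ 2 ∣ D i := by
    intro q hq
    rw [D]
    exact Dvd.dvd.mul_right (Dvd.dvd.mul_left (pow_dvd_pow_of_dvd hq 2) _) _
  have h2M : 2 ∣ M (i + 3 + 1) := even_iff_two_dvd.mp (even_M _)
  rw [D, N_succ, N_succ_succ] at h
  rcases (Nat.Prime.dvd_mul hp).mp h with h1 | h1
  · rcases (Nat.Prime.dvd_mul hp).mp h1 with h2 | h2
    · rw [show 403 = 13 * 31 by norm_num] at h2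
      rcases (Nat.Prime.dvd_mul hp).mp h2 with h3 | h3
      · have := (Nat.prime_dvd_prime_iff_eq hp (by norm_num)).mp h3
        rw [this]; exact hM 13 (M_13 (i + 1))
      · have := (Nat.prime_dvd_prime_iff_eq hp (by norm_num)).mp h3
        rw [this]; exact hM 31 (M_31 (i + 1))
    · exact hM p (hp.dvd_of_dvd_pow h2)
  · rcases (Nat.Prime.dvd_mul hp).mp h1 with h2 | h2
    · rw [D, N_succ]
      exact Dvd.dvd.mul_left (Dvd.dvd.mul_right
        (pow_dvd_pow_of_dvd (hp.dvd_of_dvd_pow h2) 2) _) _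
    · rcases (Nat.Prime.dvd_mul hp).mp h2 with h3 | h3
      · have := (Nat.prime_dvd_prime_iff_eq hp Nat.prime_two).mp h3
        rw [this]; exact hM 2 h2M
      · rw [D, N_succ_succ]
        exact Dvd.dvd.mul_left (Dvd.dvd.mul_left (Dvd.dvd.mul_left
          (pow_dvd_pow_of_dvd (hp.dvd_of_dvd_pow h3) 2) _) _) _

lemma N_pos (i : ℕ) : 0 < N i := by
  have h1 := bM_pos i
  have h2 : 0 < b (M i + 2) := b_pos (by omega)
  rw [N]; positivity

/-- the product of `l + 1` consecutive integers has powerful part at least `D i` -/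
lemma D_le (i l : ℕ) (hl : 2 ≤ l) :
    D i ≤ powerfulPart (∏ j ∈ Finset.range (l + 1), (N (i + 3 + 1) + j)) := by
  set P := ∏ j ∈ Finset.range (l + 1), (N (i + 3 + 1) + j) with hP
  have hP0 : P ≠ 0 := by
    rw [hP, Finset.prod_ne_zero_iff]
    intro j _
    have := N_pos (i + 3 + 1)
    omega
  apply Nat.le_of_dvd (powerfulPart_pos P)
  apply dvd_powerfulPart hP0 _ (D_powerful i)
  have h1 : ∏ j ∈ Finset.range 3, (N (i + 3 + 1) + j) ∣ P := by
    apply Finset.prod_dvd_prod_of_subset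
    intro j hj
    rw [Finset.mem_range] at *
    omega
  refine dvd_trans ?_ h1
  rw [Finset.prod_range_succ, Finset.prod_range_succ, Finset.prod_range_one, Nat.add_zero, D,
    mul_assoc (N (i + 3 + 1))]
  exact Nat.mul_dvd_mul_right (dvd_N i) _

/-! ### growth -/

lemma growth (k : ℕ) : (a k : ℝ) ≤ (2.4143 : ℝ) ^ k ∧ 2 * (b k : ℝ) ≤ 1.4143 * (2.4143 : ℝ) ^ k := by
  induction k with
  | zero => constructor <;> norm_num [a_zero, b_zero]
  | succ k ih =>
    obtain ⟨h1, h2⟩ := ih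
    have h3 : (0 : ℝ) < (2.4143 : ℝ) ^ k := by positivity
    rw [a_succ, b_succ, pow_succ]
    push_cast
    constructor
    · nlinarith
    · nlinarith

lemma log_rho : Real.log (2.4143 : ℝ) < 15 / 17 := by
  have h1 : (2.4143 : ℝ) ^ 17 < (2.7182818283 : ℝ) ^ 15 := by norm_num
  have h2 : (2.7182818283 : ℝ) ^ 15 < Real.exp 1 ^ 15 :=
    pow_lt_pow_left₀ Real.exp_one_gt_d9 (by norm_num) (by norm_num)
  have h3 : Real.log ((2.4143 : ℝ) ^ 17) < Real.log (Real.exp 1 ^ 15) :=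
    Real.log_lt_log (by positivity) (lt_trans h1 h2)
  rw [Real.log_pow, Real.log_pow, Real.log_exp] at h3
  push_cast at h3
  linarith

lemma log_N_lt (i : ℕ) : Real.log (N i : ℝ) < 30 / 17 * ((M i : ℝ) + 1) := by
  have h0 : (0 : ℝ) < (N i : ℝ) := by exact_mod_cast N_pos i
  have h1 : (N i : ℝ) < (2.4143 : ℝ) ^ (2 * (M i + 1)) := by
    have h2 : (N i : ℝ) + 1 = (a (M i + 1) : ℝ) ^ 2 := by exact_mod_cast N_succ i
    have h3 := (growth (M i + 1)).1
    have h4 : (a (M i + 1) : ℝ) ^ 2 ≤ ((2.4143 : ℝ) ^ (M i + 1)) ^ 2 :=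
      pow_le_pow_left₀ (by positivity) h3 2
    rw [← pow_mul, mul_comm (M i + 1) 2] at h4
    linarith
  have h5 := Real.log_lt_log h0 h1
  rw [Real.log_pow] at h5
  push_cast at h5
  have h6 : (0 : ℝ) ≤ (M i : ℝ) := Nat.cast_nonneg _
  have h7 : 2 * ((M i : ℝ) + 1) * Real.log 2.4143 ≤ 2 * ((M i : ℝ) + 1) * (15 / 17) :=
    mul_le_mul_of_nonneg_left log_rho.le (by positivity)
  linarith

/-- **Main theorem.** -/
theorem main (l : ℕ) (hl : 2 ≤ l) (n₀ : ℕ) : ∃ n : ℕ, n₀ ≤ n ∧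
    129 * (n : ℝ) ^ 2 * Real.log n ^ 2 <
      (powerfulPart (∏ j ∈ Finset.range (l + 1), (n + j)) : ℝ) := by
  obtain ⟨i, hi1, hi2⟩ : ∃ i : ℕ, n₀ ≤ i ∧ 634 ≤ i := ⟨n₀ + 634, by omega, by omega⟩
  refine ⟨N (i + 3 + 1), ?_, ?_⟩
  · have h1 : i + 3 + 1 ≤ M (i + 3 + 1) := le_M _
    have h2 : M (i + 3 + 1) ≤ b (M (i + 3 + 1)) := le_b _
    have h3 : 0 < b (M (i + 3 + 1) + 2) := b_pos (by omega)
    have h4 : b (M (i + 3 + 1)) * 1 ≤ b (M (i + 3 + 1)) * b (M (i + 3 + 1) + 2) :=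
      Nat.mul_le_mul_left _ h3
    rw [N]
    omega
  · have h1 : (D i : ℝ) ≤
        (powerfulPart (∏ j ∈ Finset.range (l + 1), (N (i + 3 + 1) + j)) : ℝ) := by
      exact_mod_cast D_le i l hl
    refine lt_of_lt_of_le ?_ h1
    have hM : (634 : ℝ) ≤ (M (i + 3 + 1) : ℝ) := by
      have : 634 ≤ M (i + 3 + 1) := by have := le_M (i + 3 + 1); omega
      exact_mod_cast this
    have hN : (0 : ℝ) < (N (i + 3 + 1) : ℝ) := by exact_mod_cast N_pos _
    have hN1 : (1 : ℝ) ≤ (N (i + 3 + 1) : ℝ) := by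
      have := N_pos (i + 3 + 1)
      exact_mod_cast this
    have hlog0 : 0 ≤ Real.log (N (i + 3 + 1) : ℝ) := Real.log_nonneg hN1
    have hlog := log_N_lt (i + 3 + 1)
    rw [D]
    push_cast
    set x : ℝ := (M (i + 3 + 1) : ℝ)
    set y : ℝ := (N (i + 3 + 1) : ℝ)
    set L : ℝ := Real.log y
    have h2 : L ^ 2 ≤ (30 / 17 * (x + 1)) ^ 2 := pow_le_pow_left₀ hlog0 hlog.le 2
    have h3 : 129 * (30 / 17 * (x + 1)) ^ 2 < 403 * x ^ 2 := by nlinarith
    have h4 : 129 * L ^ 2 < 403 * x ^ 2 := by linarith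
    have h5 : y ^ 2 < (y + 1) * (y + 2) := by nlinarith
    have h6 : (0 : ℝ) < 403 * x ^ 2 := by positivity
    calc 129 * y ^ 2 * L ^ 2 = (129 * L ^ 2) * y ^ 2 := by ring
      _ ≤ (403 * x ^ 2) * y ^ 2 := by
          apply mul_le_mul_of_nonneg_right h4.le (by positivity)
      _ < (403 * x ^ 2) * ((y + 1) * (y + 2)) := by
          apply mul_lt_mul_of_pos_left h5 h6

end Pool.Agent.Helper98.PowPart
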