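import Mathlib

set_option autoImplicit false

/-! Pell numbers and the closed index sequence. -/

namespace Pool.Agent.Helper98.PowPart

/-- `(1+√2)^k = a k + b k √2`. -/
def ab : ℕ → ℕ × ℕ
  | 0 => (1, 0)
  | (k + 1) => ((ab k).1 + 2 * (ab k).2, (ab k).1 + (ab k).2)

def a (k : ℕ) : ℕ := (ab k).1
def b (k : ℕ) : ℕ := (ab k).2

lemma a_zero : a 0 = 1 := rfl
lemma b_zero : b 0 = 0 := rfl
lemma a_succ (k : ℕ) : a (k + 1) = a k + 2 * b k := rfl
lemma b_succ (k : ℕ) : b (k + 1) = a k + b k := rfl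

lemma ab_add (m n : ℕ) :
    a (m + n) = a m * a n + 2 * (b m * b n) ∧ b (m + n) = a m * b n + b m * a n := by
  induction n with
  | zero => simp [a_zero, b_zero]
  | succ n ih =>
    obtain ⟨h1, h2⟩ := ih
    constructor
    · rw [← Nat.add_assoc, a_succ (m + n), h1, h2, a_succ n, b_succ n]; ring
    · rw [← Nat.add_assoc, b_succ (m + n), h1, h2, a_succ n, b_succ n]; ring

lemma norm (k : ℕ) : ((a k : ℤ)) ^ 2 - 2 * (b k : ℤ) ^ 2 = (-1) ^ k := by
  induction k with
  | zero => simp [a_zero, b_zero]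
  | succ k ih =>
    have h : ((-1 : ℤ)) ^ (k + 1) = - ((-1 : ℤ)) ^ k := by ring
    rw [a_succ, b_succ, h, ← ih]
    push_cast
    ring

lemma coprime_ab (k : ℕ) : Nat.Coprime (a k) (b k) := by
  rw [← Nat.isCoprime_iff_coprime]
  have h := norm k
  rcases neg_one_pow_eq_or ℤ k with h1 | h1
  · rw [h1] at h
    exact ⟨(a k : ℤ), -2 * (b k : ℤ), by linarith [h, sq (a k : ℤ), sq (b k : ℤ)]⟩
  · rw [h1] at h
    exact ⟨-(a k : ℤ), 2 * (b k : ℤ), by linarith [h, sq (a k : ℤ), sq (b k : ℤ)]⟩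

lemma a_pos (k : ℕ) : 0 < a k := by
  induction k with
  | zero => simp [a_zero]
  | succ k ih => rw [a_succ]; omega

lemma b_pos {k : ℕ} (hk : 0 < k) : 0 < b k := by
  obtain ⟨j, rfl⟩ := Nat.exists_eq_succ_of_ne_zero hk.ne'
  rw [Nat.succ_eq_add_one, b_succ]
  have := a_pos j
  omega

lemma le_b (k : ℕ) : k ≤ b k := by
  induction k with
  | zero => simp
  | succ k ih => rw [b_succ]; have := a_pos k; omega

lemma two_le_a {k : ℕ} (hk : 2 ≤ k) : 2 ≤ a k := by
  obtain ⟨j, rfl⟩ := Nat.exists_eq_add_of_le' hk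
  have h1 : 0 < b (j + 1) := b_pos (by omega)
  rw [show j + 2 = (j + 1) + 1 by ring, a_succ]
  omega

lemma b_dvd_mul (m n : ℕ) : b m ∣ b (m * n) := by
  induction n with
  | zero => simp [b_zero]
  | succ n ih =>
    rw [Nat.mul_succ, (ab_add (m * n) m).2]
    exact dvd_add (Dvd.intro_left _ rfl) (Dvd.dvd.mul_right ih _)

lemma b_dvd {m n : ℕ} (h : m ∣ n) : b m ∣ b n := by
  obtain ⟨c, rfl⟩ := h
  exact b_dvd_mul m c

lemma pow_form (k n : ℕ) : ∃ s t : ℕ, a (k * (n + 1)) = a k ^ (n + 1) + b k ^ 2 * s ∧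
    b (k * (n + 1)) = (n + 1) * a k ^ n * b k + b k ^ 3 * t := by
  induction n with
  | zero => exact ⟨0, 0, by simp, by simp⟩
  | succ n ih =>
    obtain ⟨s, t, h1, h2⟩ := ih
    refine ⟨s * a k + 2 * (n + 1) * a k ^ n + 2 * b k ^ 2 * t, s + t * a k, ?_, ?_⟩
    · rw [Nat.mul_succ, (ab_add (k * (n + 1)) k).1, h1, h2]; ring
    · rw [Nat.mul_succ, (ab_add (k * (n + 1)) k).2, h1, h2]; ring

/-- lifting: if `p ∣ b k` then `p * b k ∣ b (k * p)` -/
lemma lift {k p : ℕ} (hp : 0 < p) (h : p ∣ b k) : p * b k ∣ b (k * p) := by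
  obtain ⟨n, rfl⟩ := Nat.exists_eq_succ_of_ne_zero hp.ne'
  obtain ⟨s, t, -, h2⟩ := pow_form k n
  rw [Nat.succ_eq_add_one] at *
  rw [h2]
  refine dvd_add ?_ ?_
  · rw [mul_assoc, mul_comm (a k ^ n), ← mul_assoc]; exact Dvd.intro _ rfl
  · refine Dvd.dvd.mul_right ?_ t
    rw [show b k ^ 3 = (b k * b k) * b k by ring]
    exact mul_dvd_mul (Dvd.dvd.mul_right h _) (dvd_refl _)

/-- a new prime appears when the index is multiplied by a prime divisor -/
lemma new_prime {k p : ℕ} (hk : 2 ≤ k) (hp : p.Prime) (h : p ∣ b k) :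
    ∃ q : ℕ, q.Prime ∧ q ∣ b (k * p) ∧ ¬ q ∣ b k := by
  by_contra hcon
  push Not at hcon
  obtain ⟨n, hn⟩ := Nat.exists_eq_succ_of_ne_zero hp.pos.ne'
  rw [Nat.succ_eq_add_one] at hn
  obtain ⟨s, t, -, h2⟩ := pow_form k n
  rw [← hn] at h2
  set c : ℕ := p * a k ^ n + b k ^ 2 * t with hc
  have hbc : b (k * p) = b k * c := by
    rw [h2, hc]; ring
  have hn1 : 1 ≤ n := by have := hp.two_le; omega
  have ha2 := two_le_a hk
  have hcop := coprime_ab k
  have hc_gt : p < c := by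
    have h3 : 2 ≤ a k ^ n := by
      calc 2 ≤ a k := ha2
        _ = a k ^ 1 := (pow_one _).symm
        _ ≤ a k ^ n := Nat.pow_le_pow_right (by omega) hn1
    have h4 : p * 2 ≤ p * a k ^ n := Nat.mul_le_mul_left _ h3
    have := hp.pos
    omega
  have hall : ∀ {d : ℕ}, d.Prime → d ∣ c → d = p := by
    intro d hd hdc
    have h5 : d ∣ b k := hcon d hd (by rw [hbc]; exact Dvd.dvd.mul_left hdc _)
    have h6 : d ∣ p * a k ^ n := by
      have : d ∣ b k ^ 2 * t := Dvd.dvd.mul_right (Dvd.dvd.pow h5 (by norm_num)) _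
      exact (Nat.dvd_add_left this).mp hdc
    rcases (Nat.Prime.dvd_mul hd).mp h6 with h7 | h7
    · exact (Nat.prime_dvd_prime_iff_eq hd hp).mp h7
    · exfalso
      have h8 : d ∣ a k := hd.dvd_of_dvd_pow h7
      have := Nat.dvd_gcd h8 h5
      rw [hcop] at this
      exact hd.one_lt.ne' (Nat.dvd_one.mp this)
  have hc0 : c ≠ 0 := by have := hp.pos; omega
  have hpow := Nat.eq_prime_pow_of_unique_prime_dvd hc0 hall
  have hj : 2 ≤ c.primeFactorsList.length := by
    by_contra hlt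
    push Not at hlt
    have : c ≤ p := by
      rw [hpow]
      calc p ^ c.primeFactorsList.length ≤ p ^ 1 := Nat.pow_le_pow_right hp.pos (by omega)
        _ = p := pow_one p
    omega
  have hp2c : p ^ 2 ∣ c := by
    rw [hpow]; exact pow_dvd_pow p hj
  have hp2b : p ^ 2 ∣ b k ^ 2 * t := Dvd.dvd.mul_right (pow_dvd_pow_of_dvd h 2) _
  have h9 : p ^ 2 ∣ p * a k ^ n := (Nat.dvd_add_left hp2b).mp hp2c
  rw [sq] at h9
  have h10 : p ∣ a k ^ n := (Nat.mul_dvd_mul_iff_left hp.pos).mp h9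
  have h11 : p ∣ a k := hp.dvd_of_dvd_pow h10
  have := Nat.dvd_gcd h11 h
  rw [hcop] at this
  exact hp.one_lt.ne' (Nat.dvd_one.mp this)

/-! ### the closed index sequence -/

/-- product of the primes dividing `b m` -/
def R (m : ℕ) : ℕ := ∏ p ∈ (b m).primeFactors, p

/-- `M 0 = 4`, `M (i+1) = 2 rad (b (M i))` -/
def M : ℕ → ℕ
  | 0 => 4
  | (i + 1) => 2 * R (M i)

lemma M_succ (i : ℕ) : M (i + 1) = 2 * R (M i) := rfl

lemma R_pos (m : ℕ) : 0 < R m :=
  Finset.prod_pos fun _ hp => (Nat.prime_of_mem_primeFactors hp).pos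

lemma M_pos (i : ℕ) : 0 < M i := by
  cases i with
  | zero => decide
  | succ i => rw [M_succ]; have := R_pos (M i); omega

lemma bM_pos (i : ℕ) : 0 < b (M i) := b_pos (M_pos i)

lemma dvd_R {m p : ℕ} (hm : 0 < m) (hp : p.Prime) : p ∣ R m ↔ p ∣ b m := by
  have hb := (b_pos hm).ne'
  constructor
  · intro h
    rw [R, Prime.dvd_finsetProd_iff hp.prime] at h
    obtain ⟨q, hq, hpq⟩ := h
    have := (Nat.prime_dvd_prime_iff_eq hp (Nat.prime_of_mem_primeFactors hq)).mp hpq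
    rw [this]
    exact Nat.dvd_of_mem_primeFactors hq
  · intro h
    exact Finset.dvd_prod_of_mem _ (Nat.mem_primeFactors.mpr ⟨hp, h, hb⟩)

lemma R_dvd_R {m m' : ℕ} (h : m ∣ m') (hm' : 0 < m') : R m ∣ R m' :=
  Finset.prod_dvd_prod_of_subset _ _ _ (Nat.primeFactors_mono (b_dvd h) (b_pos hm').ne')

lemma primeFactors_12 : (12 : ℕ).primeFactors = {2, 3} := by
  rw [show (12 : ℕ) = 2 ^ 2 * 3 by norm_num, Nat.primeFactors_mul (by norm_num) (by norm_num),
    Nat.primeFactors_prime_pow (by norm_num) Nat.prime_two, Nat.prime_three.primeFactors]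
  rfl

lemma M_one : M 1 = 12 := by
  rw [M_succ, R, show b (M 0) = 12 from rfl, primeFactors_12]
  rfl

lemma two_dvd_b {m : ℕ} (h : 2 ∣ m) : 2 ∣ b m := by
  have := b_dvd h
  rwa [show b 2 = 2 from rfl] at this

lemma inv (i : ℕ) : M i ∣ M (i + 1) ∧ ∀ p : ℕ, p.Prime → p ∣ b (M i) → p ^ 2 ∣ b (M (i + 1)) := by
  induction i with
  | zero =>
    rw [M_one]
    refine ⟨by decide, fun p hp hpb => ?_⟩
    have h1 : p ∈ (12 : ℕ).primeFactors :=
      Nat.mem_primeFactors.mpr ⟨hp, hpb, by norm_num⟩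
    rw [primeFactors_12] at h1
    simp only [Finset.mem_insert, Finset.mem_singleton] at h1
    rw [show b 12 = 13860 from rfl]
    rcases h1 with rfl | rfl <;> norm_num
  | succ i ih =>
    obtain ⟨h1, h2⟩ := ih
    have h3 : M (i + 1) ∣ M (i + 1 + 1) := by
      rw [M_succ (i + 1), M_succ i]
      have := R_dvd_R h1 (M_pos (i + 1))
      rw [M_succ i] at this
      exact Nat.mul_dvd_mul_left 2 this
    refine ⟨h3, fun p hp hpb => ?_⟩
    by_cases hold : p ∣ b (M i)
    · exact dvd_trans (h2 p hp hold) (b_dvd h3)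
    · have hp2 : p ≠ 2 := by
        rintro rfl
        apply hold
        have h4 : 2 ∣ M i := by
          cases i with
          | zero => exact ⟨2, rfl⟩
          | succ j => exact ⟨R (M j), rfl⟩
        exact two_dvd_b h4
      have hpM : ¬ p ∣ M (i + 1) := by
        rw [M_succ]
        intro h
        rcases (Nat.Prime.dvd_mul hp).mp h with h5 | h5
        · exact hp2 ((Nat.prime_dvd_prime_iff_eq hp Nat.prime_two).mp h5)
        · exact hold ((dvd_R (M_pos i) hp).mp h5)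
      have hpM2 : p ∣ M (i + 1 + 1) := by
        rw [M_succ (i + 1)]
        exact Dvd.dvd.mul_left ((dvd_R (M_pos (i + 1)) hp).mpr hpb) 2
      have hcop : Nat.Coprime (M (i + 1)) p := ((Nat.Prime.coprime_iff_not_dvd hp).mpr hpM).symm
      have h6 : M (i + 1) * p ∣ M (i + 1 + 1) := hcop.mul_dvd_of_dvd_of_dvd h3 hpM2
      have h7 := lift hp.pos hpb
      refine dvd_trans ?_ (dvd_trans h7 (b_dvd h6))
      rw [sq]
      exact Nat.mul_dvd_mul_left p hpb

lemma M_dvd {i j : ℕ} (h : i ≤ j) : M i ∣ M j := by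
  induction j, h using Nat.le_induction with
  | base => exact dvd_refl _
  | succ j _ ih => exact dvd_trans ih (inv j).1

lemma four_le_M (i : ℕ) : 4 ≤ M i := Nat.le_of_dvd (M_pos i) (M_dvd (Nat.zero_le i))

lemma M_lt (i : ℕ) : M i < M (i + 1) := by
  induction i with
  | zero => rw [M_one]; decide
  | succ i ih =>
    obtain ⟨c, hc⟩ := (inv i).1
    have hc1 : c ≠ 1 := by
      rintro rfl
      omega
    obtain ⟨p, hp, hpc⟩ := Nat.exists_prime_and_dvd hc1
    have hpM : p ∣ M (i + 1) := by rw [hc]; exact Dvd.dvd.mul_left hpc _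
    have hpb : p ∣ b (M i) := by
      rw [M_succ] at hpM
      rcases (Nat.Prime.dvd_mul hp).mp hpM with h5 | h5
      · have : p = 2 := (Nat.prime_dvd_prime_iff_eq hp Nat.prime_two).mp h5
        rw [this]
        exact two_dvd_b (dvd_trans ⟨2, rfl⟩ (M_dvd (Nat.zero_le i)))
      · exact (dvd_R (M_pos i) hp).mp h5
    obtain ⟨q, hq, hq1, hq2⟩ := new_prime (by have := four_le_M i; omega) hp hpb
    have hMp : M i * p ∣ M (i + 1) := by rw [hc]; exact Nat.mul_dvd_mul_left _ hpc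
    have hq3 : q ∣ b (M (i + 1)) := dvd_trans hq1 (b_dvd hMp)
    have hqR : q ∣ R (M (i + 1)) := (dvd_R (M_pos _) hq).mpr hq3
    have hqR' : ¬ q ∣ R (M i) := fun h => hq2 ((dvd_R (M_pos _) hq).mp h)
    have hRR : R (M i) ∣ R (M (i + 1)) := R_dvd_R (inv i).1 (M_pos _)
    rw [M_succ i, M_succ (i + 1)]
    have hne : R (M i) ≠ R (M (i + 1)) := by
      intro h
      rw [← h] at hqR
      exact hqR' hqR
    have hle := Nat.le_of_dvd (R_pos _) hRR
    omega

lemma le_M (i : ℕ) : i ≤ M i := by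
  induction i with
  | zero => simp
  | succ i ih => have := M_lt i; omega

end Pool.Agent.Helper98.PowPart
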